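import Pool.Agent.Lib.Helper17.AE.Main

/-! Trace inequalities for the centred Gram matrix of a finite family of points. -/

namespace Pool.Agent.Lib.H86AE

open Finset Pool.Agent.Lib.Helper17.AE

variable {d : ℕ} {ι : Type*} [Fintype ι]

/-- `f i j = 1 - |x_i - x_j|^2`. -/
noncomputable def ff (x : ι → E d) (i j : ι) : ℝ := 1 - dist (x i) (x j) ^ 2

omit [Fintype ι] in
theorem ff_symm (x : ι → E d) (i j : ι) : ff x i j = ff x j i := by
  unfold ff; rw [dist_comm]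

omit [Fintype ι] in
theorem ff_self (x : ι → E d) (i : ι) : ff x i i = 1 := by
  unfold ff; simp

/-- (trace)^2 <= d * trace of the square, for a Gram matrix of vectors in dimension d. -/
theorem tr_sq (y : ι → E d) :
    (∑ i, 2 * inner ℝ (y i) (y i)) ^ 2 ≤ (d : ℝ) * ∑ i, ∑ j, (2 * inner ℝ (y i) (y j)) ^ 2 := by
  have h1 : ∀ i j, inner ℝ (y i) (y j) = ∑ a : Fin d, y i a * y j a := by
    intro i j
    rw [EuclideanSpace.inner_eq_star_dotProduct]
    simp [dotProduct, mul_comm]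
  have h2 : (∑ i, 2 * inner ℝ (y i) (y i)) = ∑ a : Fin d, ∑ i, 2 * (y i a * y i a) := by
    rw [Finset.sum_comm]
    refine Finset.sum_congr rfl fun i _ => ?_
    rw [h1, Finset.mul_sum]
  have h3 : (∑ a : Fin d, ∑ i, 2 * (y i a * y i a)) ^ 2 ≤
      (d : ℝ) * ∑ a : Fin d, (∑ i, 2 * (y i a * y i a)) ^ 2 := by
    have := sq_sum_le_card_mul_sum_sq (s := (Finset.univ : Finset (Fin d)))
      (f := fun a => ∑ i, 2 * (y i a * y i a))
    simpa using this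
  have h4 : ∑ a : Fin d, (∑ i, 2 * (y i a * y i a)) ^ 2 ≤
      ∑ a : Fin d, ∑ b : Fin d, (∑ i, 2 * (y i a * y i b)) ^ 2 := by
    refine Finset.sum_le_sum fun a _ => ?_
    exact Finset.single_le_sum (f := fun b => (∑ i, 2 * (y i a * y i b)) ^ 2)
      (fun b _ => sq_nonneg _) (Finset.mem_univ a)
  have h5 : ∑ a : Fin d, ∑ b : Fin d, (∑ i, 2 * (y i a * y i b)) ^ 2 =
      ∑ i, ∑ j, (2 * inner ℝ (y i) (y j)) ^ 2 := by
    have e1 : ∀ a b : Fin d, (∑ i, 2 * (y i a * y i b)) ^ 2 =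
        ∑ i, ∑ j, 4 * ((y i a * y j a) * (y i b * y j b)) := by
      intro a b
      rw [sq, Finset.sum_mul_sum]
      refine Finset.sum_congr rfl fun i _ => Finset.sum_congr rfl fun j _ => ?_
      ring
    have e2 : ∀ i j, (2 * inner ℝ (y i) (y j)) ^ 2 =
        ∑ a : Fin d, ∑ b : Fin d, 4 * ((y i a * y j a) * (y i b * y j b)) := by
      intro i j
      rw [h1, mul_pow, sq (∑ a : Fin d, _), Finset.sum_mul_sum, Finset.mul_sum]
      refine Finset.sum_congr rfl fun a _ => ?_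
      rw [Finset.mul_sum]
      refine Finset.sum_congr rfl fun b _ => ?_
      ring
    simp_rw [e1, e2]
    calc ∑ a : Fin d, ∑ b : Fin d, ∑ i, ∑ j, 4 * ((y i a * y j a) * (y i b * y j b))
        = ∑ a : Fin d, ∑ i, ∑ b : Fin d, ∑ j, 4 * ((y i a * y j a) * (y i b * y j b)) := by
          refine Finset.sum_congr rfl fun a _ => Finset.sum_comm
      _ = ∑ i, ∑ a : Fin d, ∑ b : Fin d, ∑ j, 4 * ((y i a * y j a) * (y i b * y j b)) :=
          Finset.sum_comm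
      _ = ∑ i, ∑ a : Fin d, ∑ j, ∑ b : Fin d, 4 * ((y i a * y j a) * (y i b * y j b)) := by
          refine Finset.sum_congr rfl fun i _ => Finset.sum_congr rfl fun a _ => Finset.sum_comm
      _ = ∑ i, ∑ j, ∑ a : Fin d, ∑ b : Fin d, 4 * ((y i a * y j a) * (y i b * y j b)) := by
          refine Finset.sum_congr rfl fun i _ => Finset.sum_comm
  rw [h2]
  refine h3.trans ?_
  refine mul_le_mul_of_nonneg_left (h4.trans h5.le) (Nat.cast_nonneg d)

/-- trace of the cube. -/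
noncomputable def tr3 (b : ι → ι → ℝ) : ℝ := ∑ i, ∑ j, ∑ k, b i j * b j k * b k i

/-- (trace of the square)^2 <= trace * trace of the cube. -/
theorem tr_cs (y : ι → E d) :
    (∑ i, ∑ j, (2 * inner ℝ (y i) (y j)) ^ 2) ^ 2 ≤
      (∑ i, 2 * inner ℝ (y i) (y i)) * tr3 (fun i j => 2 * inner ℝ (y i) (y j)) := by
  set z : ι → E d := fun i => ∑ j, (2 * inner ℝ (y i) (y j) : ℝ) • y j with hz
  have h1 : ∑ i, ∑ j, (2 * inner ℝ (y i) (y j)) ^ 2 = ∑ i, 2 * inner ℝ (y i) (z i) := by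
    refine Finset.sum_congr rfl fun i _ => ?_
    rw [hz]
    simp only [inner_sum, inner_smul_right, Finset.mul_sum]
    refine Finset.sum_congr rfl fun j _ => ?_
    ring
  have h2 : ∑ i, 2 * inner ℝ (z i) (z i) =
      tr3 (fun i j => 2 * inner ℝ (y i) (y j)) := by
    unfold tr3
    refine Finset.sum_congr rfl fun i _ => ?_
    rw [hz]
    simp only [inner_sum, sum_inner, inner_smul_right, inner_smul_left, Finset.mul_sum,
      RCLike.conj_to_real]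
    rw [Finset.sum_comm]
    refine Finset.sum_congr rfl fun j _ => Finset.sum_congr rfl fun k _ => ?_
    rw [real_inner_comm (y i) (y k)]
    ring
  have h3 : ∑ i, 2 * inner ℝ (y i) (z i) ≤ 2 * ∑ i, ‖y i‖ * ‖z i‖ := by
    rw [Finset.mul_sum]
    refine Finset.sum_le_sum fun i _ => ?_
    have := real_inner_le_norm (y i) (z i)
    linarith
  have h0 : 0 ≤ ∑ i, ∑ j, (2 * inner ℝ (y i) (y j)) ^ 2 :=
    Finset.sum_nonneg fun i _ => Finset.sum_nonneg fun j _ => sq_nonneg _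
  have h4 : (∑ i, ‖y i‖ * ‖z i‖) ^ 2 ≤ (∑ i, ‖y i‖ ^ 2) * ∑ i, ‖z i‖ ^ 2 :=
    Finset.sum_mul_sq_le_sq_mul_sq _ _ _
  have h5 : ∑ i, 2 * inner ℝ (y i) (y i) = 2 * ∑ i, ‖y i‖ ^ 2 := by
    rw [Finset.mul_sum]
    exact Finset.sum_congr rfl fun i _ => by rw [real_inner_self_eq_norm_sq]
  have h6 : ∑ i, 2 * inner ℝ (z i) (z i) = 2 * ∑ i, ‖z i‖ ^ 2 := by
    rw [Finset.mul_sum]
    exact Finset.sum_congr rfl fun i _ => by rw [real_inner_self_eq_norm_sq]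
  rw [← h2, h5, h6]
  rw [h1] at h0 ⊢
  have h7 : (∑ i, 2 * inner ℝ (y i) (z i)) ^ 2 ≤ (2 * ∑ i, ‖y i‖ * ‖z i‖) ^ 2 :=
    pow_le_pow_left₀ h0 h3 2
  calc (∑ i, 2 * inner ℝ (y i) (z i)) ^ 2 ≤ (2 * ∑ i, ‖y i‖ * ‖z i‖) ^ 2 := h7
    _ = 4 * (∑ i, ‖y i‖ * ‖z i‖) ^ 2 := by ring
    _ ≤ 4 * ((∑ i, ‖y i‖ ^ 2) * ∑ i, ‖z i‖ ^ 2) := by linarith
    _ = 2 * (∑ i, ‖y i‖ ^ 2) * (2 * ∑ i, ‖z i‖ ^ 2) := by ring

end Pool.Agent.Lib.H86AE
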