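import Pool.Agent.Lib.H86AE.Sums

/-! From points to the two numerical inequalities. -/

namespace Pool.Agent.Lib.H86AE

open Finset Pool.Agent.Lib.Helper17.AE

section
variable {d : ℕ} {ι : Type*} [Fintype ι]

theorem centred [Nonempty ι] (x : ι → E d) :
    ∃ y : ι → E d, ∀ i j, 2 * inner ℝ (y i) (y j) = bb (ff x) i j := by
  have hN : (Fintype.card ι : ℝ) ≠ 0 := by
    exact_mod_cast Fintype.card_ne_zero
  set N : ℝ := (Fintype.card ι : ℝ) with hNdef
  set c : E d := (1 / N) • ∑ i, x i with hc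
  set y : ι → E d := fun i => x i - c with hy
  have hsum : ∑ i, y i = 0 := by
    rw [hy]
    simp only [Finset.sum_sub_distrib, Finset.sum_const, Finset.card_univ]
    rw [hc, ← Nat.cast_smul_eq_nsmul ℝ, smul_smul, ← hNdef, mul_one_div_cancel hN, one_smul,
      sub_self]
  have hg : ∀ i j, 2 * inner ℝ (y i) (y j) = ‖y i‖ ^ 2 + ‖y j‖ ^ 2 - 1 + ff x i j := by
    intro i j
    unfold ff
    have h1 : dist (x i) (x j) = ‖y i - y j‖ := by
      rw [dist_eq_norm]
      show ‖x i - x j‖ = ‖(x i - c) - (x j - c)‖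
      rw [sub_sub_sub_cancel_right]
    have h2 := norm_sub_sq_real (y i) (y j)
    rw [h1]
    linarith
  have hrow : ∀ i, 0 = rr (ff x) i + N * ‖y i‖ ^ 2 + (∑ j, ‖y j‖ ^ 2) - N := by
    intro i
    have h1 : ∑ j, 2 * inner ℝ (y i) (y j) = 0 := by
      rw [← Finset.mul_sum, ← inner_sum, hsum, inner_zero_right, mul_zero]
    simp_rw [hg] at h1
    rw [Finset.sum_add_distrib, Finset.sum_sub_distrib, Finset.sum_add_distrib] at h1
    simp only [Finset.sum_const, Finset.card_univ, nsmul_eq_mul, mul_one] at h1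
    rw [← hNdef] at h1
    have h2 : ∑ j, ff x i j = rr (ff x) i := rfl
    rw [h2] at h1
    linarith
  have hR : RR (ff x) = N ^ 2 - 2 * N * ∑ j, ‖y j‖ ^ 2 := by
    have h1 : ∑ i, (rr (ff x) i + N * ‖y i‖ ^ 2 + (∑ j, ‖y j‖ ^ 2) - N) = 0 :=
      Finset.sum_eq_zero fun i _ => (hrow i).symm
    rw [Finset.sum_sub_distrib, Finset.sum_add_distrib, Finset.sum_add_distrib,
      ← Finset.mul_sum] at h1
    simp only [Finset.sum_const, Finset.card_univ, nsmul_eq_mul] at h1
    rw [← hNdef] at h1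
    have h2 : ∑ i, rr (ff x) i = RR (ff x) := rfl
    rw [h2] at h1
    linarith
  refine ⟨y, fun i j => ?_⟩
  rw [hg]
  unfold bb
  rw [← hNdef, hR]
  have h1 := hrow i
  have h2 := hrow j
  have e1 : rr (ff x) i = N - N * ‖y i‖ ^ 2 - ∑ j, ‖y j‖ ^ 2 := by linarith
  have e2 : rr (ff x) j = N - N * ‖y j‖ ^ 2 - ∑ j, ‖y j‖ ^ 2 := by linarith
  rw [e1, e2]
  field_simp
  ring

/-- energy: sum of squares over ordered pairs of distinct indices. -/
noncomputable def FF [DecidableEq ι] (f : ι → ι → ℝ) : ℝ :=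
  ∑ i, ∑ j, if i = j then 0 else f i j ^ 2

theorem sum_sq_eq [DecidableEq ι] (f : ι → ι → ℝ) (h1 : ∀ i, f i i = 1) :
    ∑ i, ∑ j, f i j ^ 2 = (Fintype.card ι : ℝ) + FF f := by
  unfold FF
  have e : ∀ i j, f i j ^ 2 = (if i = j then 1 else 0) + (if i = j then 0 else f i j ^ 2) := by
    intro i j
    by_cases h : i = j
    · subst h; simp [h1]
    · simp [h]
  have e2 : ∀ i, ∑ j, f i j ^ 2 = 1 + ∑ j, (if i = j then 0 else f i j ^ 2) := by
    intro i
    rw [Finset.sum_congr rfl fun j _ => e i j, Finset.sum_add_distrib]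
    simp
  simp_rw [e2, Finset.sum_add_distrib]
  simp

theorem tr3_tri [DecidableEq ι] (f : ι → ι → ℝ) (h1 : ∀ i, f i i = 1)
    (hs : ∀ i j, f i j = f j i)
    (ht : ∀ i j k, i ≠ j → j ≠ k → i ≠ k → f i j = 0 ∨ f j k = 0 ∨ f i k = 0) :
    tr3 f = (Fintype.card ι : ℝ) + 3 * FF f := by
  have e : ∀ i j, ∑ k, f i j * f j k * f k i =
      (if i = j then ∑ k, f i k ^ 2 else 0) + 2 * (if i = j then 0 else f i j ^ 2) := by
    intro i j
    by_cases h : i = j
    · subst h
      simp only [if_true, mul_zero, add_zero]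
      refine Finset.sum_congr rfl fun k _ => ?_
      rw [h1, hs k i]; ring
    · simp only [h, if_false, zero_add]
      have e1 : ∀ k, f i j * f j k * f k i =
          (if k = i then f i j ^ 2 else 0) + (if k = j then f i j ^ 2 else 0) := by
        intro k
        by_cases hk : k = i
        · subst hk
          simp only [if_true, h, if_false, add_zero]
          rw [h1, hs j k]; ring
        · by_cases hk2 : k = j
          · subst hk2
            simp only [if_true, hk, if_false, zero_add]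
            rw [h1, hs k i]; ring
          · simp only [hk, hk2, if_false, add_zero]
            rcases ht i j k h (fun h2 => hk2 h2.symm) (fun h2 => hk h2.symm) with h3 | h3 | h3
            · rw [h3]; ring
            · rw [h3]; ring
            · rw [hs k i, h3]; ring
      simp_rw [e1, Finset.sum_add_distrib]
      simp
      ring
  unfold tr3
  simp_rw [e, Finset.sum_add_distrib, ← Finset.mul_sum]
  have e2 : ∑ i, ∑ j, (if i = j then ∑ k, f i k ^ 2 else 0) = ∑ i, ∑ k, f i k ^ 2 := by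
    refine Finset.sum_congr rfl fun i _ => ?_
    simp
  rw [e2, sum_sq_eq f h1]
  unfold FF
  ring

/-- the two trace inequalities in terms of `N, F, σ, ω²`. -/
theorem main_ineqs [Nonempty ι] [DecidableEq ι] (x : ι → E d)
    (ht : ∀ i j k, i ≠ j → j ≠ k → i ≠ k → ff x i j = 0 ∨ ff x j k = 0 ∨ ff x i k = 0)
    (N F s w : ℝ) (hN : N = Fintype.card ι) (hF : F = FF (ff x))
    (hs : s = RR (ff x) / N - 1) (hw : w = (∑ i, (rr (ff x) i - 1) ^ 2) / N) :
    (N + F - 1 - 2 * s - 2 * w + s ^ 2) ^ 2 ≤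
      (N - 1 - s) * (N + 3 * F - (1 + s) * (1 + 2 * s + 3 * w - 2 * s ^ 2)) ∧
    (N - 1 - s) ^ 2 ≤ (d : ℝ) * (N + F - 1 - 2 * s - 2 * w + s ^ 2) ∧
    0 ≤ N - 1 - s := by
  have hN0 : N ≠ 0 := by
    rw [hN]; exact_mod_cast Fintype.card_ne_zero
  obtain ⟨y, hy⟩ := centred x
  have hsym := ff_symm x
  have hself := ff_self x
  have hR : RR (ff x) / N = 1 + s := by rw [hs]; ring
  have hm2 : (∑ i, rr (ff x) i ^ 2) / N = 1 + 2 * s + w := by
    have e : ∀ i, (rr (ff x) i - 1) ^ 2 = rr (ff x) i ^ 2 - 2 * rr (ff x) i + 1 := by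
      intro i; ring
    have e2 : ∑ i, (rr (ff x) i - 1) ^ 2 = (∑ i, rr (ff x) i ^ 2) - 2 * RR (ff x) + N := by
      simp_rw [e, Finset.sum_add_distrib, Finset.sum_sub_distrib, ← Finset.mul_sum]
      rw [hN]
      simp [RR]
    rw [hw, e2, add_div, sub_div, div_self hN0, mul_div_assoc, hR]
    ring
  have T1 : ∑ i, 2 * inner ℝ (y i) (y i) = N - 1 - s := by
    simp_rw [hy]
    rw [tr1 (ff x) hself, ← hN, hR]; ring
  have T2 : ∑ i, ∑ j, (2 * inner ℝ (y i) (y j)) ^ 2 = N + F - 1 - 2 * s - 2 * w + s ^ 2 := by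
    simp_rw [hy]
    rw [tr2 (ff x) hsym, sum_sq_eq (ff x) hself, ← hN, ← hF]
    have e1 : 2 * (∑ i, rr (ff x) i ^ 2) / N = 2 * (1 + 2 * s + w) := by
      rw [mul_div_assoc, hm2]
    have e2 : RR (ff x) ^ 2 / N ^ 2 = (1 + s) ^ 2 := by
      rw [← div_pow, hR]
    rw [e1, e2]; ring
  have T3 : tr3 (fun i j => 2 * inner ℝ (y i) (y j)) ≤
      N + 3 * F - (1 + s) * (1 + 2 * s + 3 * w - 2 * s ^ 2) := by
    have e0 : (fun i j => 2 * inner ℝ (y i) (y j)) = bb (ff x) := by
      funext i j; exact hy i j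
    rw [e0, tr3_eq (ff x) hsym, tr3_tri (ff x) hself hsym ht, ← hN, ← hF, hR, hm2]
    have hβ : 0 ≤ ∑ i, ∑ j, bb (ff x) i j * (rr (ff x) i * rr (ff x) j) := by
      have e : ∑ i, ∑ j, bb (ff x) i j * (rr (ff x) i * rr (ff x) j) =
          2 * inner ℝ (∑ i, rr (ff x) i • y i) (∑ i, rr (ff x) i • y i) := by
        rw [sum_inner, Finset.mul_sum]
        refine Finset.sum_congr rfl fun i _ => ?_
        rw [inner_sum, Finset.mul_sum]
        refine Finset.sum_congr rfl fun j _ => ?_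
        rw [← hy, inner_smul_left, inner_smul_right]
        simp only [RCLike.conj_to_real]
        ring
      rw [e, real_inner_self_eq_norm_sq]
      positivity
    have hβ2 : 0 ≤ (∑ i, ∑ j, bb (ff x) i j * (rr (ff x) i * rr (ff x) j)) / N := by
      apply div_nonneg hβ
      rw [hN]; positivity
    nlinarith [hβ2]
  have hT1 : 0 ≤ N - 1 - s := by
    rw [← T1]
    refine Finset.sum_nonneg fun i _ => ?_
    rw [real_inner_self_eq_norm_sq]; positivity
  refine ⟨?_, ?_, hT1⟩
  · have h := tr_cs y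
    rw [T2, T1] at h
    exact h.trans (mul_le_mul_of_nonneg_left T3 hT1)
  · have h := tr_sq y
    rwa [T1, T2] at h

/-- few neighbours: `s² ≤ w` and `w N ≤ D F`. -/
theorem deg_ineq [Nonempty ι] [DecidableEq ι] (x : ι → E d) (D : ℕ)
    (hdeg : ∀ i, (Finset.univ.filter fun j => i ≠ j ∧ ff x i j ≠ 0).card ≤ D)
    (N F s w : ℝ) (hN : N = Fintype.card ι) (hF : F = FF (ff x))
    (hs : s = RR (ff x) / N - 1) (hw : w = (∑ i, (rr (ff x) i - 1) ^ 2) / N) :
    s ^ 2 ≤ w ∧ w * N ≤ D * F := by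
  have hN0 : 0 < N := by
    rw [hN]; exact_mod_cast Fintype.card_pos
  have e : ∑ i, (rr (ff x) i - 1) = s * N := by
    rw [Finset.sum_sub_distrib, hs]
    simp only [Finset.sum_const, Finset.card_univ, nsmul_eq_mul, mul_one]
    rw [← hN, sub_mul, div_mul_cancel₀ _ hN0.ne', one_mul]; rfl
  constructor
  · have h := sq_sum_le_card_mul_sum_sq (s := (Finset.univ : Finset ι))
      (f := fun i => rr (ff x) i - 1)
    rw [e, Finset.card_univ, ← hN] at h
    have h2 : ∑ i, (rr (ff x) i - 1) ^ 2 = w * N := by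
      rw [hw, div_mul_cancel₀ _ hN0.ne']
    rw [h2] at h
    have h3 : s ^ 2 * N ^ 2 ≤ w * N ^ 2 := by nlinarith
    exact le_of_mul_le_mul_right h3 (by positivity)
  · rw [hw, div_mul_cancel₀ _ hN0.ne', hF]
    unfold FF
    rw [Finset.mul_sum]
    refine Finset.sum_le_sum fun i _ => ?_
    set S := Finset.univ.filter fun j => i ≠ j ∧ ff x i j ≠ 0 with hS
    have h1 : rr (ff x) i - 1 = ∑ j ∈ S, ff x i j := by
      have a : rr (ff x) i = ∑ j, ((if i = j then 1 else 0) + (if i = j then 0 else ff x i j)) := by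
        refine Finset.sum_congr rfl fun j _ => ?_
        by_cases h : i = j
        · subst h; simp [ff_self]
        · simp [h]
      rw [a, Finset.sum_add_distrib]
      simp only [Finset.sum_ite_eq, Finset.mem_univ, if_true]
      rw [hS, Finset.sum_filter]
      rw [add_sub_cancel_left]
      refine Finset.sum_congr rfl fun j _ => ?_
      by_cases h : i = j
      · simp [h]
      · by_cases h2 : ff x i j = 0
        · simp [h2]
        · simp [h, h2]
    have h2 : ∑ j ∈ S, ff x i j ^ 2 ≤ ∑ j, (if i = j then 0 else ff x i j ^ 2) := by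
      rw [hS, Finset.sum_filter]
      refine Finset.sum_le_sum fun j _ => ?_
      by_cases h : i = j
      · simp [h]
      · by_cases h2 : ff x i j = 0
        · simp [h2]
        · simp [h, h2]
    rw [h1]
    have h3 : (∑ j ∈ S, ff x i j) ^ 2 ≤ (S.card : ℝ) * ∑ j ∈ S, ff x i j ^ 2 :=
      sq_sum_le_card_mul_sum_sq
    have h4 : (S.card : ℝ) ≤ D := by exact_mod_cast hdeg i
    have h5 : 0 ≤ ∑ j ∈ S, ff x i j ^ 2 := Finset.sum_nonneg fun j _ => sq_nonneg _
    calc (∑ j ∈ S, ff x i j) ^ 2 ≤ (S.card : ℝ) * ∑ j ∈ S, ff x i j ^ 2 := h3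
      _ ≤ (D : ℝ) * ∑ j ∈ S, ff x i j ^ 2 := mul_le_mul_of_nonneg_right h4 h5
      _ ≤ (D : ℝ) * ∑ j, (if i = j then 0 else ff x i j ^ 2) :=
          mul_le_mul_of_nonneg_left h2 (Nat.cast_nonneg D)

end

end Pool.Agent.Lib.H86AE
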