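import Pool.Agent.Lib.H86AE.Geo

/-! The numerical contradiction and the counting theorem. -/

namespace Pool.Agent.Lib.H86AE

open Finset Pool.Agent.Lib.Helper17.AE

theorem n_base (N w D F t : ℝ) (hw0 : 0 ≤ w) (h4 : w * N ≤ D * F) (hD : 1 ≤ D)
    (hN : 12 * t * D ≤ N) : 12 * t * w ≤ F := by
  have e0 : w * (12 * t * D) ≤ w * N := mul_le_mul_of_nonneg_left hN hw0
  have e1 : (12 * t * w) * D ≤ F * D := by linarith [mul_comm w (12 * t * D)]
  exact le_of_mul_le_mul_right e1 (by linarith)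

theorem n_tN (N t : ℝ) (hN : 0 ≤ N) (ht : 1 ≤ t) : N ≤ t * N := by nlinarith

theorem n_N12 (N D t : ℝ) (ht : 1 ≤ t) (hD : 1 ≤ D) (hN : 12 * t * D ≤ N) : 12 * t ≤ N := by
  have : t ≤ t * D := by nlinarith
  linarith

theorem n_L (N F s w : ℝ) (hN12 : 12 ≤ N) (hB1 : 12 * w ≤ F) :
    5 / 6 * (N + F) ≤ N + F - 1 - 2 * s - 2 * w + s ^ 2 := by
  have := sq_nonneg (s - 1)
  have e : (s - 1) ^ 2 = s ^ 2 - 2 * s + 1 := by ring
  rw [e] at this
  linarith

theorem n_G (N F s w κ : ℝ) (hw0 : 0 ≤ w) (h3 : s ^ 2 ≤ w) (hκ : 0 ≤ κ) (hsκ : -s ≤ κ) :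
    N + 3 * F - (1 + s) * (1 + 2 * s + 3 * w - 2 * s ^ 2) ≤ N + 3 * F + 3 * κ * w := by
  by_cases hs : -1 ≤ s
  · have e0 : 0 ≤ 1 + 2 * s + 3 * w - 2 * s ^ 2 := by
      have := sq_nonneg (1 + s)
      have e : (1 + s) ^ 2 = 1 + 2 * s + s ^ 2 := by ring
      rw [e] at this
      linarith
    have e1 : 0 ≤ (1 + s) * (1 + 2 * s + 3 * w - 2 * s ^ 2) :=
      mul_nonneg (by linarith) e0
    have e2 : 0 ≤ 3 * κ * w := by positivity
    linarith
  · push Not at hs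
    have e1 : 1 + 2 * s - 2 * s ^ 2 ≤ 0 := by nlinarith [sq_nonneg s]
    have e2 : (-1 - s) * (1 + 2 * s - 2 * s ^ 2) ≤ 0 :=
      mul_nonpos_of_nonneg_of_nonpos (by linarith) e1
    have e3 : (-1 - s) * w ≤ κ * w := mul_le_mul_of_nonneg_right (by linarith) hw0
    have e4 : (1 + s) * (1 + 2 * s + 3 * w - 2 * s ^ 2) =
        -((-1 - s) * (1 + 2 * s - 2 * s ^ 2)) - 3 * ((-1 - s) * w) := by ring
    rw [e4]
    linarith

theorem n_kw (w κ t F : ℝ) (hw0 : 0 ≤ w) (ht : 1 ≤ t) (htκ : t ^ 2 = 1 + κ)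
    (hB : 12 * t * w ≤ F) : 3 * κ * w ≤ t * F / 4 := by
  have e1 : κ ≤ t ^ 2 := by linarith
  have e2 : κ * w ≤ t ^ 2 * w := mul_le_mul_of_nonneg_right e1 hw0
  have e4 := mul_le_mul_of_nonneg_left hB (by linarith : (0:ℝ) ≤ t)
  have e3 : t * (12 * t * w) = 12 * (t ^ 2 * w) := by ring
  rw [e3] at e4
  linarith

theorem n_kF (w κ t F : ℝ) (ht : 1 ≤ t) (hF : 0 ≤ F)
    (hκw : κ ^ 2 ≤ w) (hB : 12 * t * w ≤ F) (hF60 : 60 * t ^ 2 ≤ F) : 26 * t * κ ≤ F := by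
  have e1 : (26 * t * κ) ^ 2 ≤ F ^ 2 := by
    have a1 : 12 * t * κ ^ 2 ≤ F := by
      have := mul_le_mul_of_nonneg_left hκw (by linarith : (0:ℝ) ≤ 12 * t)
      linarith
    have a2 : (12 * t * κ ^ 2) * (60 * t ^ 2) ≤ F * F := by
      apply mul_le_mul a1 hF60 (by positivity) hF
    have a3 : (26 * t * κ) ^ 2 ≤ (12 * t * κ ^ 2) * (60 * t ^ 2) := by
      have a4 : 0 ≤ κ ^ 2 * t ^ 2 := by positivity
      have a5 : κ ^ 2 * t ^ 2 * 1 ≤ κ ^ 2 * t ^ 2 * t := mul_le_mul_of_nonneg_left ht a4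
      have a6 : (26 * t * κ) ^ 2 = 676 * (κ ^ 2 * t ^ 2) := by ring
      have a7 : (12 * t * κ ^ 2) * (60 * t ^ 2) = 720 * (κ ^ 2 * t ^ 2 * t) := by ring
      rw [a6, a7]
      linarith
    have a8 : F ^ 2 = F * F := sq F
    linarith
  exact le_of_sq_le_sq e1 hF

theorem n_fin (N F κ t : ℝ) (hN : 0 < N) (hF : 0 ≤ F) (ht : 1 ≤ t) (hκ : 0 ≤ κ)
    (hcon : 5 * t * N ≤ F) (hκF : 26 * t * κ ≤ F)
    (h : (5 / 6 * (N + F)) ^ 2 ≤ (N + κ) * (N + 3 * F + t * F / 4)) : False := by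
  have htN : 5 * N ≤ 5 * t * N := by nlinarith
  have hNF : 5 * N ≤ F := by linarith
  have hκ1 : 26 * κ ≤ F := by
    have : 26 * κ ≤ 26 * t * κ := by nlinarith
    linarith
  have b1 : N * (t * F / 4) ≤ F * F / 20 := by
    have h1 : (5 * t * N) * F ≤ F * F := mul_le_mul_of_nonneg_right hcon hF
    have h2 : N * (t * F / 4) = ((5 * t * N) * F) / 20 := by ring
    rw [h2]; linarith
  have b2 : κ * N ≤ F * N / 26 := by
    have h1 := mul_le_mul_of_nonneg_right hκ1 hN.le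
    linarith
  have b3 : κ * (3 * F) ≤ 3 * F * F / 26 := by
    have h1 := mul_le_mul_of_nonneg_right hκ1 hF
    linarith
  have b4 : κ * (t * F / 4) ≤ F * F / 104 := by
    have h1 := mul_le_mul_of_nonneg_right hκF hF
    have h2 : κ * (t * F / 4) = (26 * t * κ * F) / 104 := by ring
    rw [h2]; linarith
  have b5 : (5 / 6 * (N + F)) ^ 2 ≤ N ^ 2 + 3 * N * F + F * F / 20 + F * N / 26
      + 3 * F * F / 26 + F * F / 104 := by
    have h1 : (N + κ) * (N + 3 * F + t * F / 4) = N ^ 2 + 3 * N * F + N * (t * F / 4)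
      + κ * N + κ * (3 * F) + κ * (t * F / 4) := by ring
    rw [h1] at h
    linarith
  have hFpos : 0 < F := by linarith
  have c1 : 0 ≤ N * (F - 5 * N) := mul_nonneg hN.le (by linarith)
  have c2 : 0 ≤ F * (F - 5 * N) := mul_nonneg hF (by linarith)
  have c3 : 0 < F * F := mul_pos hFpos hFpos
  nlinarith [c1, c2, c3]

/-- energy bound `F ≤ 5 t N`. -/
theorem num1 (N F s w D κ t : ℝ)
    (h1 : (N + F - 1 - 2 * s - 2 * w + s ^ 2) ^ 2 ≤
      (N - 1 - s) * (N + 3 * F - (1 + s) * (1 + 2 * s + 3 * w - 2 * s ^ 2)))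
    (h0 : 0 ≤ N - 1 - s) (h3 : s ^ 2 ≤ w) (h4 : w * N ≤ D * F) (hD : 1 ≤ D) (hF : 0 ≤ F)
    (ht : 1 ≤ t) (hκ : 0 ≤ κ) (htκ : t ^ 2 = 1 + κ) (hsκ : -s ≤ κ) (hκw : κ ^ 2 ≤ w)
    (hN : 12 * t * D ≤ N) : F ≤ 5 * t * N := by
  by_contra hcon
  push Not at hcon
  have hw0 : 0 ≤ w := (sq_nonneg s).trans h3
  have hN12t : 12 * t ≤ N := n_N12 N D t ht hD hN
  have hN12 : 12 ≤ N := by linarith
  have hB : 12 * t * w ≤ F := n_base N w D F t hw0 h4 hD hN
  have hB1 : 12 * w ≤ F := by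
    have : 12 * w ≤ 12 * t * w := by
      have := n_tN w t hw0 ht
      linarith
    linarith
  have hL := n_L N F s w hN12 hB1
  have hL0 : 0 ≤ 5 / 6 * (N + F) := by positivity
  have hLL : (5 / 6 * (N + F)) ^ 2 ≤ (N + F - 1 - 2 * s - 2 * w + s ^ 2) ^ 2 :=
    pow_le_pow_left₀ hL0 hL 2
  have hG := n_G N F s w κ hw0 h3 hκ hsκ
  have hκw2 := n_kw w κ t F hw0 ht htκ hB
  have hG2 : N + 3 * F - (1 + s) * (1 + 2 * s + 3 * w - 2 * s ^ 2) ≤
      N + 3 * F + t * F / 4 := by linarith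
  have hF60 : 60 * t ^ 2 ≤ F := by
    have h5 : 5 * t * (12 * t) ≤ 5 * t * N := mul_le_mul_of_nonneg_left hN12t (by linarith)
    have h6 : 5 * t * (12 * t) = 60 * t ^ 2 := by ring
    linarith
  have hκF := n_kF w κ t F ht hF hκw hB hF60
  refine n_fin N F κ t (by linarith) hF ht hκ hcon.le hκF ?_
  refine hLL.trans (h1.trans ?_)
  have hpos : 0 ≤ N + 3 * F + t * F / 4 := by positivity
  calc (N - 1 - s) * (N + 3 * F - (1 + s) * (1 + 2 * s + 3 * w - 2 * s ^ 2))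
      ≤ (N - 1 - s) * (N + 3 * F + t * F / 4) := mul_le_mul_of_nonneg_left hG2 h0
    _ ≤ (N + κ) * (N + 3 * F + t * F / 4) :=
        mul_le_mul_of_nonneg_right (by linarith) hpos

theorem n_half (N s : ℝ) (hN : 12 ≤ N) (h5 : (N - 1 - s) ^ 2 ≤ N ^ 2 / 2) :
    N - 1 - s ≤ 71 / 100 * N := by
  by_contra hc
  push Not at hc
  have h1 : (71 / 100 * N) ^ 2 ≤ (N - 1 - s) ^ 2 :=
    pow_le_pow_left₀ (by linarith) hc.le 2
  have h2 : (71 / 100 * N) ^ 2 = 5041 / 10000 * N ^ 2 := by ring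
  have h3 : 0 < N ^ 2 := by positivity
  linarith

theorem n_pos (N s D F w : ℝ) (hN12 : 12 ≤ N) (h3 : s ^ 2 ≤ w) (h4 : w * N ≤ D * F)
    (hD : 12 * D ≤ N) (hD1 : 1 ≤ D) (hF5 : F ≤ 5 * N) (hs : N - 1 - s ≤ 71 / 100 * N) :
    False := by
  have h7 : (29 / 100 - 1 / 12) * N ≤ s := by linarith
  have h8 : s ^ 2 * N ≤ D * F := (mul_le_mul_of_nonneg_right h3 (by linarith)).trans h4
  have h9 : D * F ≤ 5 / 12 * N * N := by
    have a1 : D * F ≤ D * (5 * N) := mul_le_mul_of_nonneg_left hF5 (by linarith)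
    have a2 := mul_le_mul_of_nonneg_right hD (by linarith : (0:ℝ) ≤ N)
    linarith
  have h10 : ((29 / 100 - 1 / 12) * N) ^ 2 ≤ s ^ 2 :=
    pow_le_pow_left₀ (by
      have : (0:ℝ) ≤ 29 / 100 - 1 / 12 := by norm_num
      positivity) h7 2
  have h11 : s ^ 2 ≤ 5 / 12 * N := by
    have : s ^ 2 * N ≤ (5 / 12 * N) * N := by linarith
    exact le_of_mul_le_mul_right this (by linarith)
  have h12 : ((29 / 100 - 1 / 12) * N) ^ 2 = (29 / 100 - 1 / 12) ^ 2 * (N * N) := by ring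
  have h13 : 12 * N ≤ N * N := mul_le_mul_of_nonneg_right hN12 (by linarith)
  rw [h12] at h10
  norm_num at h10
  linarith

/-- the contradiction -/
theorem num2 (N F s w D dd κ t : ℝ)
    (h1 : (N + F - 1 - 2 * s - 2 * w + s ^ 2) ^ 2 ≤
      (N - 1 - s) * (N + 3 * F - (1 + s) * (1 + 2 * s + 3 * w - 2 * s ^ 2)))
    (h2 : (N - 1 - s) ^ 2 ≤ dd * (N + F - 1 - 2 * s - 2 * w + s ^ 2))
    (h0 : 0 ≤ N - 1 - s) (h3 : s ^ 2 ≤ w) (h4 : w * N ≤ D * F) (hD : 1 ≤ D) (hF : 0 ≤ F)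
    (hdd0 : 0 ≤ dd) (hdd : dd ≤ D)
    (ht : 1 ≤ t) (hκ : 0 ≤ κ) (htκ : t ^ 2 = 1 + κ) (hsκ : -s ≤ κ) (hκw : κ ^ 2 ≤ w)
    (hst : s ≤ 0 ∨ t = 1) (hN : 12 * t * D ≤ N) : False := by
  have hF5 := num1 N F s w D κ t h1 h0 h3 h4 hD hF ht hκ htκ hsκ hκw hN
  have hN12t : 12 * t ≤ N := n_N12 N D t ht hD hN
  have hN12 : 12 ≤ N := by linarith
  have htN : N ≤ t * N := n_tN N t (by linarith) ht
  have hLle : N + F - 1 - 2 * s - 2 * w + s ^ 2 ≤ 6 * (t * N) := by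
    have := sq_nonneg (1 + s)
    have e : (1 + s) ^ 2 = 1 + 2 * s + s ^ 2 := by ring
    rw [e] at this
    linarith
  have h5 : (N - 1 - s) ^ 2 ≤ N ^ 2 / 2 := by
    have a1 : dd * (N + F - 1 - 2 * s - 2 * w + s ^ 2) ≤ dd * (6 * (t * N)) :=
      mul_le_mul_of_nonneg_left hLle hdd0
    have htN0 : 0 ≤ t * N := by linarith
    have a2 : dd * (6 * (t * N)) ≤ D * (6 * (t * N)) :=
      mul_le_mul_of_nonneg_right hdd (by linarith)
    have a3 : D * (6 * (t * N)) = (12 * t * D) * N / 2 := by ring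
    have a4 : (12 * t * D) * N / 2 ≤ N * N / 2 := by
      have := mul_le_mul_of_nonneg_right hN (by linarith : (0:ℝ) ≤ N)
      linarith
    have a5 : N ^ 2 = N * N := sq N
    linarith
  rcases hst with hs | ht1
  · have b1 : (11 / 12 * N) ^ 2 ≤ (N - 1 - s) ^ 2 :=
      pow_le_pow_left₀ (by linarith) (by linarith) 2
    have b2 : (11 / 12 * N) ^ 2 = 121 / 144 * N ^ 2 := by ring
    have b3 : 0 < N ^ 2 := by positivity
    linarith
  · subst ht1
    exact n_pos N s D F w hN12 h3 h4 (by linarith) hD (by linarith)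
      (n_half N s hN12 h5)

/-- Counting theorem. -/
theorem card_bound {d : ℕ} (V : Finset (E d)) (hV : AlmostEq V) (κ : ℝ) (hκ : 0 ≤ κ)
    (hsum : ∑ x ∈ V, ∑ y ∈ V.erase x, (dist x y ^ 2 - 1) ≤ κ * V.card) :
    (V.card : ℝ) ≤ 12 * Real.sqrt (1 + κ) * (d + 1) := by
  classical
  by_contra hcon
  push Not at hcon
  have hVne : V.Nonempty := by
    rw [Finset.nonempty_iff_ne_empty]
    intro h
    rw [h] at hcon
    simp only [Finset.card_empty, Nat.cast_zero] at hcon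
    have : 0 ≤ 12 * Real.sqrt (1 + κ) * ((d : ℝ) + 1) := by positivity
    linarith
  let ι := {x // x ∈ V}
  have : Nonempty ι := ⟨⟨hVne.choose, hVne.choose_spec⟩⟩
  let x : ι → E d := fun i => i.1
  have hcard : (Fintype.card ι : ℝ) = V.card := by
    simp [ι]
  have hne : ∀ i j : ι, i ≠ j → x i ≠ x j := fun i j h h2 => h (Subtype.ext h2)
  have hzero : ∀ i j : ι, dist (x i) (x j) = 1 → ff x i j = 0 := by
    intro i j h; unfold ff; rw [h]; norm_num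
  have hzero' : ∀ i j : ι, ff x i j ≠ 0 → dist (x i) (x j) ≠ 1 := fun i j h h2 => h (hzero i j h2)
  have ht3 : ∀ i j k : ι, i ≠ j → j ≠ k → i ≠ k →
      ff x i j = 0 ∨ ff x j k = 0 ∨ ff x i k = 0 := by
    intro i j k hij hjk hik
    rcases hV (x i) i.2 (x j) j.2 (x k) k.2 (hne i j hij) (hne j k hjk) (hne i k hik)
      with h | h | h
    · exact Or.inl (hzero _ _ h)
    · exact Or.inr (Or.inl (hzero _ _ h))
    · exact Or.inr (Or.inr (hzero _ _ h))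
  have hdeg : ∀ i : ι, (Finset.univ.filter fun j => i ≠ j ∧ ff x i j ≠ 0).card ≤ d + 1 := by
    intro i
    refine le_trans ?_ (nbr_card hV i.2)
    refine Finset.card_le_card_of_injOn (fun j => x j) ?_ ?_
    · intro j hj
      rw [Finset.mem_coe, Finset.mem_filter] at hj
      rw [Finset.mem_coe, mem_nbr]
      exact ⟨j.2, hne j i (fun h => hj.2.1 h.symm), hzero' i j hj.2.2⟩
    · intro j _ k _ h
      exact Subtype.ext h
  set N : ℝ := (Fintype.card ι : ℝ) with hNdef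
  set F : ℝ := FF (ff x) with hFdef
  set s : ℝ := RR (ff x) / N - 1 with hsdef
  set w : ℝ := (∑ i, (rr (ff x) i - 1) ^ 2) / N with hwdef
  obtain ⟨m1, m2, m3⟩ := main_ineqs x ht3 N F s w rfl rfl rfl rfl
  obtain ⟨g1, g2⟩ := deg_ineq x (d + 1) hdeg N F s w rfl rfl rfl rfl
  have hN0 : 0 < N := by
    rw [hNdef]; exact_mod_cast Fintype.card_pos
  have hF0 : 0 ≤ F := by
    rw [hFdef]; unfold FF
    refine Finset.sum_nonneg fun i _ => Finset.sum_nonneg fun j _ => ?_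
    split_ifs
    · exact le_rfl
    · exact sq_nonneg _
  -- translate the hypothesis on the sum
  have hsκ : -s ≤ κ := by
    have e1 : ∑ y ∈ V, ∑ z ∈ V.erase y, (dist y z ^ 2 - 1) = N - RR (ff x) := by
      have a1 : ∀ y ∈ V, ∑ z ∈ V.erase y, (dist y z ^ 2 - 1) =
          1 - ∑ z ∈ V, (1 - dist y z ^ 2) := by
        intro y hy
        rw [← Finset.add_sum_erase V _ hy, dist_self]
        rw [← sub_eq_zero]
        rw [show (∑ z ∈ V.erase y, (dist y z ^ 2 - 1)) =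
          - ∑ z ∈ V.erase y, (1 - dist y z ^ 2) by
            rw [← Finset.sum_neg_distrib]
            exact Finset.sum_congr rfl fun z _ => by ring]
        ring
      rw [Finset.sum_congr rfl a1, Finset.sum_sub_distrib]
      have a2 : RR (ff x) = ∑ y ∈ V, ∑ z ∈ V, (1 - dist y z ^ 2) := by
        unfold RR rr ff
        rw [← Finset.sum_coe_sort V]
        refine Finset.sum_congr rfl fun i _ => ?_
        rw [← Finset.sum_coe_sort V]
      rw [a2, hcard]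
      simp
    rw [e1, ← hcard] at hsum
    rw [hsdef]
    have e2 : RR (ff x) / N ≥ 1 - κ := by
      rw [ge_iff_le, le_div_iff₀ hN0]
      nlinarith
    linarith
  have hbig : ∀ t : ℝ, 1 ≤ t → t ≤ Real.sqrt (1 + κ) → 12 * t * ((d : ℝ) + 1) ≤ N := by
    intro t _ h
    rw [← hcard] at hcon
    have : 12 * t * ((d : ℝ) + 1) ≤ 12 * Real.sqrt (1 + κ) * ((d : ℝ) + 1) := by
      apply mul_le_mul_of_nonneg_right _ (by positivity)
      linarith
    linarith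
  have hd1 : (1 : ℝ) ≤ (d : ℝ) + 1 := by
    have : (0 : ℝ) ≤ d := Nat.cast_nonneg d
    linarith
  have g2' : w * N ≤ ((d : ℝ) + 1) * F := by
    have := g2; push_cast at this; exact this
  by_cases hs : s ≤ 0
  · have hk0 : 0 ≤ -s := by linarith
    have hsq : (Real.sqrt (1 + -s)) ^ 2 = 1 + -s := Real.sq_sqrt (by linarith)
    have ht1 : 1 ≤ Real.sqrt (1 + -s) := by
      rw [show (1 : ℝ) = Real.sqrt 1 by simp]
      exact Real.sqrt_le_sqrt (by simpa using hk0)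
    refine num2 N F s w (d + 1) d (-s) (Real.sqrt (1 + -s)) m1 m2 m3 g1 g2' hd1 hF0
      (Nat.cast_nonneg d) (by linarith) ht1 hk0 hsq le_rfl ?_ (Or.inl hs) ?_
    · rw [neg_sq]; exact g1
    · exact hbig _ ht1 (Real.sqrt_le_sqrt (by linarith))
  · push Not at hs
    refine num2 N F s w (d + 1) d 0 1 m1 m2 m3 g1 g2' hd1 hF0
      (Nat.cast_nonneg d) (by linarith) le_rfl le_rfl (by norm_num) (by linarith) ?_
      (Or.inr rfl) ?_
    · have : 0 ≤ w := (sq_nonneg s).trans g1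
      simpa using this
    · refine hbig 1 le_rfl ?_
      rw [show (1 : ℝ) = Real.sqrt 1 by simp]
      exact Real.sqrt_le_sqrt (by simpa using hκ)

/-- Sets of small diameter. -/
theorem card_bound_diam {d : ℕ} (V : Finset (E d)) (hV : AlmostEq V) (δ : ℝ) (hδ : 0 ≤ δ)
    (hdist : ∀ x ∈ V, ∀ y ∈ V, dist x y ^ 2 ≤ 1 + δ) :
    (V.card : ℝ) ≤ 12 * Real.sqrt (1 + δ * (d + 1)) * (d + 1) := by
  classical
  refine card_bound V hV (δ * (d + 1)) (by positivity) ?_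
  have h1 : ∀ x ∈ V, ∑ y ∈ V.erase x, (dist x y ^ 2 - 1) ≤ δ * (d + 1) := by
    intro x hx
    have hsub : nbr V x ⊆ V.erase x := by
      intro y hy
      rw [mem_nbr] at hy
      exact Finset.mem_erase.mpr ⟨hy.2.1, hy.1⟩
    have e1 : ∑ y ∈ V.erase x, (dist x y ^ 2 - 1) = ∑ y ∈ nbr V x, (dist x y ^ 2 - 1) := by
      refine (Finset.sum_subset hsub ?_).symm
      intro y hy hy2
      have hy3 := Finset.mem_erase.mp hy
      have : dist x y = 1 := by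
        by_contra h
        exact hy2 (mem_nbr.mpr ⟨hy3.2, hy3.1, h⟩)
      rw [this]; norm_num
    rw [e1]
    have e2 : ∑ y ∈ nbr V x, (dist x y ^ 2 - 1) ≤ ∑ y ∈ nbr V x, δ := by
      refine Finset.sum_le_sum fun y hy => ?_
      rw [mem_nbr] at hy
      have := hdist x hx y hy.1
      linarith
    refine e2.trans ?_
    rw [Finset.sum_const, nsmul_eq_mul, mul_comm]
    have e3 : ((nbr V x).card : ℝ) ≤ (d : ℝ) + 1 := by
      exact_mod_cast nbr_card hV hx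
    exact mul_le_mul_of_nonneg_left e3 hδ
  calc ∑ x ∈ V, ∑ y ∈ V.erase x, (dist x y ^ 2 - 1) ≤ ∑ x ∈ V, δ * ((d : ℝ) + 1) :=
        Finset.sum_le_sum h1
    _ = δ * (d + 1) * V.card := by
        rw [Finset.sum_const, nsmul_eq_mul, mul_comm]

end Pool.Agent.Lib.H86AE
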