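import Pool.Agent.Lib.H86AE.Alg

/-! Double centring: sums for `b = P f P`. -/

namespace Pool.Agent.Lib.H86AE

open Finset

section
variable {ι : Type*} [Fintype ι]

/-- row sums -/
noncomputable def rr (f : ι → ι → ℝ) (i : ι) : ℝ := ∑ j, f i j

/-- total sum -/
noncomputable def RR (f : ι → ι → ℝ) : ℝ := ∑ i, rr f i

/-- the doubly centred matrix -/
noncomputable def bb (f : ι → ι → ℝ) (i j : ι) : ℝ :=
  f i j - (rr f i + rr f j) / (Fintype.card ι : ℝ) + RR f / (Fintype.card ι : ℝ) ^ 2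

variable (f : ι → ι → ℝ)

theorem bb_symm (hs : ∀ i j, f i j = f j i) (i j : ι) : bb f i j = bb f j i := by
  unfold bb; rw [hs i j, add_comm (rr f i)]

theorem row_zero [Nonempty ι] (i : ι) : ∑ j, bb f i j = 0 := by
  have hN : (Fintype.card ι : ℝ) ≠ 0 := by
    exact_mod_cast Fintype.card_ne_zero
  unfold bb
  rw [Finset.sum_add_distrib, Finset.sum_sub_distrib, ← Finset.sum_div, Finset.sum_add_distrib]
  have h1 : ∑ j, f i j = rr f i := rfl
  have h2 : ∑ j, rr f j = RR f := rfl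
  rw [h1, h2]
  simp only [Finset.sum_const, Finset.card_univ, nsmul_eq_mul]
  field_simp
  ring

theorem col_zero [Nonempty ι] (hs : ∀ i j, f i j = f j i) (j : ι) : ∑ i, bb f i j = 0 := by
  rw [← row_zero f j]
  exact Finset.sum_congr rfl fun i _ => bb_symm f hs i j

theorem tr1 [Nonempty ι] (h1 : ∀ i, f i i = 1) :
    ∑ i, bb f i i = (Fintype.card ι : ℝ) - RR f / (Fintype.card ι : ℝ) := by
  have hN : (Fintype.card ι : ℝ) ≠ 0 := by
    exact_mod_cast Fintype.card_ne_zero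
  unfold bb
  rw [Finset.sum_add_distrib, Finset.sum_sub_distrib, ← Finset.sum_div, Finset.sum_add_distrib]
  have h2 : ∑ j, rr f j = RR f := rfl
  rw [h2]
  simp only [h1, Finset.sum_const, Finset.card_univ, nsmul_eq_mul]
  field_simp
  ring

theorem sum_bg [Nonempty ι] (hs : ∀ i j, f i j = f j i) (g : ι → ι → ℝ) :
    ∑ i, ∑ j, bb f i j * bb g i j = ∑ i, ∑ j, bb f i j * g i j := by
  have e : ∀ i j, bb f i j * bb g i j = bb f i j * g i j
      - (rr g i / (Fintype.card ι : ℝ)) * bb f i j - bb f i j * (rr g j / (Fintype.card ι : ℝ))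
      + (RR g / (Fintype.card ι : ℝ) ^ 2) * bb f i j := by
    intro i j
    rw [show bb g i j = g i j - (rr g i + rr g j) / (Fintype.card ι : ℝ)
      + RR g / (Fintype.card ι : ℝ) ^ 2 from rfl]
    ring
  simp_rw [e, Finset.sum_add_distrib, Finset.sum_sub_distrib, ← Finset.mul_sum, row_zero f]
  have h3 : ∑ i, ∑ j, bb f i j * (rr g j / (Fintype.card ι : ℝ)) = 0 := by
    rw [Finset.sum_comm]
    refine Finset.sum_eq_zero fun j _ => ?_
    rw [← Finset.sum_mul, col_zero f hs, zero_mul]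
  rw [h3]
  simp

/-- `∑ b_ij g_ij` for any symmetric-like `g`. -/
theorem sum_fg (g : ι → ι → ℝ) :
    ∑ i, ∑ j, bb f i j * g i j = (∑ i, ∑ j, f i j * g i j)
      - (∑ i, ∑ j, (rr f i + rr f j) * g i j) / (Fintype.card ι : ℝ)
      + RR f / (Fintype.card ι : ℝ) ^ 2 * ∑ i, ∑ j, g i j := by
  have e : ∀ i j, bb f i j * g i j = f i j * g i j
      - ((rr f i + rr f j) * g i j) / (Fintype.card ι : ℝ)
      + RR f / (Fintype.card ι : ℝ) ^ 2 * g i j := by
    intro i j
    unfold bb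
    ring
  simp_rw [e, Finset.sum_add_distrib, Finset.sum_sub_distrib, ← Finset.mul_sum, ← Finset.sum_div]

theorem tr2 [Nonempty ι] (hs : ∀ i j, f i j = f j i) :
    ∑ i, ∑ j, bb f i j ^ 2 = (∑ i, ∑ j, f i j ^ 2)
      - 2 * (∑ i, rr f i ^ 2) / (Fintype.card ι : ℝ) + RR f ^ 2 / (Fintype.card ι : ℝ) ^ 2 := by
  have e : ∀ i j, bb f i j ^ 2 = bb f i j * bb f i j := fun i j => sq _
  simp_rw [e]
  rw [sum_bg f hs, sum_fg]
  have h1 : ∑ i, ∑ j, (rr f i + rr f j) * f i j = 2 * ∑ i, rr f i ^ 2 := by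
    simp_rw [add_mul, Finset.sum_add_distrib]
    have a1 : ∑ i, ∑ j, rr f i * f i j = ∑ i, rr f i ^ 2 := by
      refine Finset.sum_congr rfl fun i _ => ?_
      rw [← Finset.mul_sum, sq]; rfl
    have a2 : ∑ i, ∑ j, rr f j * f i j = ∑ i, rr f i ^ 2 := by
      rw [Finset.sum_comm]
      refine Finset.sum_congr rfl fun i _ => ?_
      rw [← Finset.mul_sum, sq]
      congr 1
      exact Finset.sum_congr rfl fun j _ => hs j i
    rw [a1, a2]; ring
  have h2 : ∑ i, ∑ j, f i j = RR f := rfl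
  have h3 : ∑ i, ∑ j, f i j * f i j = ∑ i, ∑ j, f i j ^ 2 :=
    Finset.sum_congr rfl fun i _ => Finset.sum_congr rfl fun j _ => (sq _).symm
  rw [h1, h2, h3]
  ring

/-- `(f^2)_ij` -/
noncomputable def f2 (i j : ι) : ℝ := ∑ k, f i k * f k j

theorem tr3_step1 [Nonempty ι] (hs : ∀ i j, f i j = f j i) :
    tr3 (bb f) = ∑ i, ∑ j, bb f i j * (∑ k, bb f j k * f k i) := by
  unfold tr3
  have e : ∀ i j k, bb f i j * bb f j k * bb f k i = bb f i j * (bb f j k * f k i)
      - (bb f i j * (rr f i / (Fintype.card ι : ℝ) - RR f / (Fintype.card ι : ℝ) ^ 2)) * bb f j k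
      - (bb f i j * bb f j k) * (rr f k / (Fintype.card ι : ℝ)) := by
    intro i j k
    rw [show bb f k i = f k i - (rr f k + rr f i) / (Fintype.card ι : ℝ)
      + RR f / (Fintype.card ι : ℝ) ^ 2 from rfl]
    ring
  simp_rw [e, Finset.sum_sub_distrib, ← Finset.mul_sum, row_zero f]
  have h3 : ∑ i, ∑ j, ∑ k, (bb f i j * bb f j k) * (rr f k / (Fintype.card ι : ℝ)) = 0 := by
    rw [Finset.sum_comm]
    refine Finset.sum_eq_zero fun j _ => ?_
    rw [Finset.sum_comm]
    refine Finset.sum_eq_zero fun k _ => ?_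
    have : ∀ i, (bb f i j * bb f j k) * (rr f k / (Fintype.card ι : ℝ)) =
        bb f i j * (bb f j k * (rr f k / (Fintype.card ι : ℝ))) := fun i => by ring
    simp_rw [this]
    rw [← Finset.sum_mul, col_zero f hs, zero_mul]
  rw [h3]
  simp

theorem tr3_step2 [Nonempty ι] (hs : ∀ i j, f i j = f j i) :
    ∑ i, ∑ j, bb f i j * (∑ k, bb f j k * f k i) =
      (∑ i, ∑ j, bb f i j * f2 f j i)
        - (∑ i, ∑ j, bb f i j * (rr f i * rr f j)) / (Fintype.card ι : ℝ) := by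
  have e : ∀ i j, ∑ k, bb f j k * f k i = f2 f j i - rr f i * rr f j / (Fintype.card ι : ℝ)
      + (RR f / (Fintype.card ι : ℝ) ^ 2 * rr f i
        - (∑ k, rr f k * f k i) / (Fintype.card ι : ℝ)) := by
    intro i j
    have e1 : ∀ k, bb f j k * f k i = f j k * f k i - rr f j / (Fintype.card ι : ℝ) * f k i
        - rr f k * f k i / (Fintype.card ι : ℝ) + RR f / (Fintype.card ι : ℝ) ^ 2 * f k i := by
      intro k; unfold bb; ring
    simp_rw [e1, Finset.sum_add_distrib, Finset.sum_sub_distrib, ← Finset.mul_sum,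
      ← Finset.sum_div]
    have h2 : ∑ k, f k i = rr f i := Finset.sum_congr rfl fun k _ => hs k i
    rw [h2]
    unfold f2
    ring
  simp_rw [e]
  have e2 : ∀ i j, bb f i j * (f2 f j i - rr f i * rr f j / (Fintype.card ι : ℝ)
      + (RR f / (Fintype.card ι : ℝ) ^ 2 * rr f i
        - (∑ k, rr f k * f k i) / (Fintype.card ι : ℝ))) =
      bb f i j * f2 f j i - bb f i j * (rr f i * rr f j) / (Fintype.card ι : ℝ)
      + (RR f / (Fintype.card ι : ℝ) ^ 2 * rr f i
        - (∑ k, rr f k * f k i) / (Fintype.card ι : ℝ)) * bb f i j := by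
    intro i j; ring
  simp_rw [e2, Finset.sum_add_distrib, Finset.sum_sub_distrib, ← Finset.mul_sum,
    ← Finset.sum_div, row_zero f]
  simp

theorem sum_f2 (hs : ∀ i j, f i j = f j i) : ∑ i, ∑ j, f2 f i j = ∑ i, rr f i ^ 2 := by
  unfold f2
  calc ∑ i, ∑ j, ∑ k, f i k * f k j = ∑ i, ∑ k, f i k * rr f k := by
        refine Finset.sum_congr rfl fun i _ => ?_
        rw [Finset.sum_comm]
        refine Finset.sum_congr rfl fun k _ => ?_
        rw [← Finset.mul_sum]; rfl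
    _ = ∑ k, rr f k ^ 2 := by
        rw [Finset.sum_comm]
        refine Finset.sum_congr rfl fun k _ => ?_
        rw [← Finset.sum_mul, sq]
        congr 1
        exact Finset.sum_congr rfl fun i _ => hs i k

theorem sum_rf2 (hs : ∀ i j, f i j = f j i) :
    ∑ i, ∑ j, (rr f i + rr f j) * f2 f j i = 2 * ∑ i, ∑ j, f i j * (rr f i * rr f j) := by
  have a0 : ∀ i j, f2 f j i = f2 f i j := by
    intro i j; unfold f2
    refine Finset.sum_congr rfl fun k _ => ?_
    rw [hs j k, hs k i]; ring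
  have a1 : ∀ i, ∑ j, f2 f i j = ∑ k, f i k * rr f k := by
    intro i; unfold f2
    rw [Finset.sum_comm]
    refine Finset.sum_congr rfl fun k _ => ?_
    rw [← Finset.mul_sum]; rfl
  have a2 : ∑ i, ∑ j, rr f i * f2 f j i = ∑ i, ∑ j, f i j * (rr f i * rr f j) := by
    refine Finset.sum_congr rfl fun i _ => ?_
    simp_rw [a0]
    rw [← Finset.mul_sum, a1, Finset.mul_sum]
    refine Finset.sum_congr rfl fun k _ => by ring
  have a3 : ∑ i, ∑ j, rr f j * f2 f j i = ∑ i, ∑ j, f i j * (rr f i * rr f j) := by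
    rw [Finset.sum_comm]
    refine Finset.sum_congr rfl fun i _ => ?_
    rw [← Finset.mul_sum, a1, Finset.mul_sum]
    refine Finset.sum_congr rfl fun k _ => by ring
  simp_rw [add_mul, Finset.sum_add_distrib]
  rw [a2, a3]; ring

theorem sum_rr (N : ℝ) : ∑ i : ι, ∑ j : ι, (rr f i * rr f j) * N = RR f ^ 2 * N := by
  have : RR f ^ 2 = ∑ i, ∑ j, rr f i * rr f j := by
    rw [sq]
    show (∑ i, rr f i) * (∑ j, rr f j) = _
    rw [Finset.sum_mul_sum]
  rw [this, Finset.sum_mul]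
  refine Finset.sum_congr rfl fun i _ => ?_
  rw [Finset.sum_mul]

/-- the cubic identity: with `m1 = R/N`, `m2 = (1/N) ∑ r²`, `β = (1/N) ∑ b_ij r_i r_j`,
`tr b³ = tr f³ - 3β - 3 m1 m2 + 2 m1³`. -/
theorem tr3_eq [Nonempty ι] (hs : ∀ i j, f i j = f j i) :
    tr3 (bb f) = tr3 f
      - 3 * ((∑ i, ∑ j, bb f i j * (rr f i * rr f j)) / (Fintype.card ι : ℝ))
      - 3 * (RR f / (Fintype.card ι : ℝ)) * ((∑ i, rr f i ^ 2) / (Fintype.card ι : ℝ))
      + 2 * (RR f / (Fintype.card ι : ℝ)) ^ 3 := by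
  have hN : (Fintype.card ι : ℝ) ≠ 0 := by
    exact_mod_cast Fintype.card_ne_zero
  have h1 : ∑ i, ∑ j, bb f i j * f2 f j i = tr3 f
      - (2 * ∑ i, ∑ j, f i j * (rr f i * rr f j)) / (Fintype.card ι : ℝ)
      + RR f / (Fintype.card ι : ℝ) ^ 2 * ∑ i, rr f i ^ 2 := by
    rw [sum_fg f (fun i j => f2 f j i), sum_rf2 f hs]
    have e1 : ∑ i, ∑ j, f2 f j i = ∑ i, rr f i ^ 2 := by
      rw [Finset.sum_comm]; exact sum_f2 f hs
    have e2 : ∑ i, ∑ j, f i j * f2 f j i = tr3 f := by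
      unfold tr3 f2
      refine Finset.sum_congr rfl fun i _ => Finset.sum_congr rfl fun j _ => ?_
      rw [Finset.mul_sum]
      exact Finset.sum_congr rfl fun k _ => by ring
    rw [e1, e2]
  have h2 : ∑ i, ∑ j, bb f i j * (rr f i * rr f j) =
      (∑ i, ∑ j, f i j * (rr f i * rr f j))
      - (2 * (∑ i, rr f i ^ 2) * RR f) / (Fintype.card ι : ℝ)
      + RR f / (Fintype.card ι : ℝ) ^ 2 * RR f ^ 2 := by
    rw [sum_fg f (fun i j => rr f i * rr f j)]
    have e1 : ∑ i, ∑ j, rr f i * rr f j = RR f ^ 2 := by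
      have := sum_rr f 1
      simpa using this
    have e2 : ∑ i, ∑ j, (rr f i + rr f j) * (rr f i * rr f j) =
        2 * (∑ i, rr f i ^ 2) * RR f := by
      have a1 : ∑ i, ∑ j, rr f i ^ 2 * rr f j = (∑ i, rr f i ^ 2) * RR f := by
        show _ = (∑ i, rr f i ^ 2) * (∑ j, rr f j)
        rw [Finset.sum_mul_sum]
      have a2 : ∑ i, ∑ j, rr f i * rr f j ^ 2 = (∑ i, rr f i ^ 2) * RR f := by
        rw [Finset.sum_comm, ← a1]
        exact Finset.sum_congr rfl fun i _ => Finset.sum_congr rfl fun j _ => by ring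
      have a3 : ∀ i j, (rr f i + rr f j) * (rr f i * rr f j) =
          rr f i ^ 2 * rr f j + rr f i * rr f j ^ 2 := by intro i j; ring
      simp_rw [a3, Finset.sum_add_distrib]
      rw [a1, a2]; ring
    rw [e1, e2]
  rw [tr3_step1 f hs, tr3_step2 f hs, h1]
  set β := ∑ i, ∑ j, bb f i j * (rr f i * rr f j) with hβ
  have h3 : ∑ i, ∑ j, f i j * (rr f i * rr f j) = β
      + (2 * (∑ i, rr f i ^ 2) * RR f) / (Fintype.card ι : ℝ)
      - RR f / (Fintype.card ι : ℝ) ^ 2 * RR f ^ 2 := by rw [h2]; ring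
  rw [h3]
  field_simp
  ring

end

end Pool.Agent.Lib.H86AE
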